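import Mathlib
import Pool.Agent.H45.RookLib

namespace Pool.Agent.Results.MP_a338c1_co.Below

open Pool.Agent.H45.RookLib

theorem result (n : ℕ) (h : (20 ≤ n ∧ Even n) ∨ 31 ≤ n) : gam n < n / 2 :=
  all.2 n h

end Pool.Agent.Results.MP_a338c1_co.Below
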