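import Mathlib
import Pool.Agent.H45.RookLib

namespace Pool.Agent.Results.MP_a338c1_co.Lower

open Pool.Agent.H45.RookLib

theorem result (n : ℕ) (h : 5 ≤ n) : 2 * n ≤ 5 * gam n :=
  (all.1 n h).1

end Pool.Agent.Results.MP_a338c1_co.Lower
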