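import Mathlib
import Pool.Agent.H45.RookLib

namespace Pool.Agent.Results.MP_a338c1_co.Upper

open Pool.Agent.H45.RookLib

theorem result (n : ℕ) (h : 5 ≤ n) : 24 * gam n ≤ 11 * n + 68 :=
  (all.1 n h).2

end Pool.Agent.Results.MP_a338c1_co.Upper
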